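import Pool.Agent.Helper71.SN.Goals

/-!
# Packet CNT1 of MP_9b2a83_an: the number of pairs with exactly `j` common digits
-/

namespace Pool.Agent.Helper71.SN.PkCNT1

open Pool.Agent.Helper71.SN Pool.Agent.Helper39.Net

theorem agr_eq_iff {b L j t t' : ℕ} (hj : j ≤ L) (ht : t < b ^ (L + 1)) (ht' : t' < b ^ (L + 1)) :
    agr b (L + 1) t t' = j ↔ t / b ^ (L - j) / b = t' / b ^ (L - j) / b ∧
      t / b ^ (L - j) ≠ t' / b ^ (L - j) := by
  have h1 := le_agr_iff (D := L + 1) (j := j) (by omega) ht ht'
  have h2 := le_agr_iff (D := L + 1) (j := j + 1) (by omega) ht ht'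
  have e1 : L + 1 - j = (L - j) + 1 := by omega
  have e2 : L + 1 - (j + 1) = L - j := by omega
  rw [e1, pow_succ] at h1
  rw [e2] at h2
  rw [Nat.div_div_eq_div_mul, Nat.div_div_eq_div_mul, ← h1, Ne, ← h2]
  omega

theorem two_mul_pairs (b : ℕ) :
    2 * ((Finset.range b ×ˢ Finset.range b).filter fun q => q.1 < q.2).card = b * (b - 1) := by
  have e : ((Finset.range b ×ˢ Finset.range b).filter fun q => q.1 < q.2).card
      = ∑ e' ∈ Finset.range b, e' := by
    have h0 : ((Finset.range b ×ˢ Finset.range b).filter fun q => q.1 < q.2)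
        = (Finset.range b).biUnion fun e' => (Finset.range e').image fun e => (e, e') := by
      ext ⟨x, y⟩
      simp only [Finset.mem_filter, Finset.mem_product, Finset.mem_range, Finset.mem_biUnion,
        Finset.mem_image, Prod.mk.injEq]
      constructor
      · rintro ⟨⟨h1, h2⟩, h3⟩
        exact ⟨y, h2, x, h3, rfl, rfl⟩
      · rintro ⟨y', h2, x', h3, rfl, rfl⟩
        exact ⟨⟨by omega, h2⟩, h3⟩
    rw [h0, Finset.card_biUnion]
    · refine Finset.sum_congr rfl fun y _ => ?_
      rw [Finset.card_image_of_injective _ (fun a c h => (Prod.mk.inj h).1), Finset.card_range]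
    · intro y _ z _ hyz
      refine Finset.disjoint_left.2 ?_
      rintro ⟨p, q⟩ h1 h2
      simp only [Finset.mem_image, Finset.mem_range, Prod.mk.injEq] at h1 h2
      obtain ⟨_, _, _, h1⟩ := h1
      obtain ⟨_, _, _, h2⟩ := h2
      exact hyz (h1.trans h2.symm)
  rw [e, mul_comm, Finset.sum_range_id_mul_two]

theorem thm : G_CNT1 := by
  intro b L j hb hj
  have hm : 0 < b ^ (L - j) := Nat.pow_pos hb
  set m := b ^ (L - j) with hmdef
  have hN : b ^ (L + 1) = b ^ j * b * m := by
    rw [hmdef, mul_assoc, ← pow_succ', ← pow_add]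
    congr 1
    omega
  have hcard : ((Finset.range (b ^ (L + 1)) ×ˢ Finset.range (b ^ (L + 1))).filter
      fun q => q.1 < q.2 ∧ agr b (L + 1) q.1 q.2 = j).card =
      ((Finset.range (b ^ j) ×ˢ ((Finset.range b ×ˢ Finset.range b).filter
        fun q => q.1 < q.2)) ×ˢ (Finset.range m ×ˢ Finset.range m)).card := by
    refine Finset.card_nbij'
      (fun q => ((q.1 / m / b, (q.1 / m % b, q.2 / m % b)), (q.1 % m, q.2 % m)))
      (fun w => ((w.1.1 * b + w.1.2.1) * m + w.2.1, (w.1.1 * b + w.1.2.2) * m + w.2.2))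
      ?_ ?_ ?_ ?_
    · rintro ⟨t, t'⟩ h
      simp only [Finset.coe_filter, Finset.mem_product, Finset.mem_range, Set.mem_ofPred_eq] at h
      obtain ⟨⟨ht, ht'⟩, hlt, hag⟩ := h
      obtain ⟨h1, h2⟩ := (agr_eq_iff hj ht ht').1 hag
      rw [← hmdef] at h1 h2
      simp only [Finset.coe_product, Finset.coe_range, Set.mem_prod, Set.mem_Iio,
        Finset.coe_filter, Set.mem_ofPred_eq, Finset.mem_product, Finset.mem_range]
      refine ⟨⟨?_, ⟨Nat.mod_lt _ hb, Nat.mod_lt _ hb⟩, ?_⟩, Nat.mod_lt _ hm, Nat.mod_lt _ hm⟩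
      · rw [Nat.div_div_eq_div_mul, Nat.div_lt_iff_lt_mul (Nat.mul_pos hm hb)]
        calc t < b ^ (L + 1) := ht
          _ = b ^ j * (m * b) := by rw [hN]; ring
      · have h3 : t / m ≤ t' / m := Nat.div_le_div_right hlt.le
        have h4 : t / m < t' / m := lt_of_le_of_ne h3 h2
        have h5 := Nat.div_add_mod (t / m) b
        have h6 := Nat.div_add_mod (t' / m) b
        rw [← h5, ← h6, ← h1] at h4
        omega
    · rintro ⟨⟨a, e, e'⟩, r, r'⟩ h
      simp only [Finset.coe_product, Finset.coe_range, Set.mem_prod, Set.mem_Iio,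
        Finset.coe_filter, Set.mem_ofPred_eq, Finset.mem_product, Finset.mem_range] at h
      obtain ⟨⟨ha, ⟨he, he'⟩, hee⟩, hr, hr'⟩ := h
      have key : ∀ x y : ℕ, x < b → y < m → (a * b + x) * m + y < b ^ (L + 1) := by
        intro x y hx hy
        have h1 : (a * b + x) + 1 ≤ b ^ j * b := by
          have : (a + 1) * b ≤ b ^ j * b := Nat.mul_le_mul_right _ ha
          have : (a + 1) * b = a * b + b := by ring
          omega
        calc (a * b + x) * m + y < (a * b + x) * m + m := by omega
          _ = ((a * b + x) + 1) * m := by ring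
          _ ≤ (b ^ j * b) * m := Nat.mul_le_mul_right _ h1
          _ = b ^ (L + 1) := hN.symm
      have k1 := key e r he hr
      have k2 := key e' r' he' hr'
      have d1 : ((a * b + e) * m + r) / m = a * b + e := by
        rw [mul_comm, Nat.mul_add_div hm, Nat.div_eq_of_lt hr, add_zero]
      have d2 : ((a * b + e') * m + r') / m = a * b + e' := by
        rw [mul_comm, Nat.mul_add_div hm, Nat.div_eq_of_lt hr', add_zero]
      have d3 : (a * b + e) / b = a := by
        rw [mul_comm, Nat.mul_add_div hb, Nat.div_eq_of_lt he, add_zero]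
      have d4 : (a * b + e') / b = a := by
        rw [mul_comm, Nat.mul_add_div hb, Nat.div_eq_of_lt he', add_zero]
      simp only [Finset.coe_filter, Finset.mem_product, Finset.mem_range, Set.mem_ofPred_eq]
      refine ⟨⟨k1, k2⟩, ?_, ?_⟩
      · have h1 : (a * b + e) + 1 ≤ a * b + e' := by omega
        calc (a * b + e) * m + r < (a * b + e) * m + m := by omega
          _ = ((a * b + e) + 1) * m := by ring
          _ ≤ (a * b + e') * m := Nat.mul_le_mul_right _ h1
          _ ≤ (a * b + e') * m + r' := Nat.le_add_right _ _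
      · rw [agr_eq_iff hj k1 k2, ← hmdef, d1, d2, d3, d4]
        exact ⟨rfl, by omega⟩
    · rintro ⟨t, t'⟩ h
      simp only [Finset.coe_filter, Finset.mem_product, Finset.mem_range, Set.mem_ofPred_eq] at h
      obtain ⟨⟨ht, ht'⟩, hlt, hag⟩ := h
      obtain ⟨h1, h2⟩ := (agr_eq_iff hj ht ht').1 hag
      rw [← hmdef] at h1 h2
      have h5 := Nat.div_add_mod' (t / m) b
      have h6 := Nat.div_add_mod' (t' / m) b
      have h7 := Nat.div_add_mod' t m
      have h8 := Nat.div_add_mod' t' m
      rw [← h1] at h6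
      simp only [Prod.mk.injEq]
      exact ⟨by rw [h5, h7], by rw [h6, h8]⟩
    · rintro ⟨⟨a, e, e'⟩, r, r'⟩ h
      simp only [Finset.coe_product, Finset.coe_range, Set.mem_prod, Set.mem_Iio,
        Finset.coe_filter, Set.mem_ofPred_eq, Finset.mem_product, Finset.mem_range] at h
      obtain ⟨⟨ha, ⟨he, he'⟩, hee⟩, hr, hr'⟩ := h
      have d1 : ((a * b + e) * m + r) / m = a * b + e := by
        rw [mul_comm, Nat.mul_add_div hm, Nat.div_eq_of_lt hr, add_zero]
      have d2 : ((a * b + e') * m + r') / m = a * b + e' := by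
        rw [mul_comm, Nat.mul_add_div hm, Nat.div_eq_of_lt hr', add_zero]
      have d3 : (a * b + e) / b = a := by
        rw [mul_comm, Nat.mul_add_div hb, Nat.div_eq_of_lt he, add_zero]
      simp only [Prod.mk.injEq]
      refine ⟨⟨by rw [d1, d3], ?_, ?_⟩, ?_, ?_⟩
      · rw [d1, mul_comm, Nat.mul_add_mod, Nat.mod_eq_of_lt he]
      · rw [d2, mul_comm, Nat.mul_add_mod, Nat.mod_eq_of_lt he']
      · rw [mul_comm, Nat.mul_add_mod, Nat.mod_eq_of_lt hr]
      · rw [mul_comm, Nat.mul_add_mod, Nat.mod_eq_of_lt hr']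
  rw [hcard, Finset.card_product, Finset.card_product, Finset.card_product, Finset.card_range,
    Finset.card_range]
  have h2 := two_mul_pairs b
  calc 2 * b ^ j * (b ^ j * ((Finset.range b ×ˢ Finset.range b).filter
        fun q => q.1 < q.2).card * (m * m))
      = b ^ j * b ^ j * (m * m) * (2 * ((Finset.range b ×ˢ Finset.range b).filter
        fun q => q.1 < q.2).card) := by ring
    _ = b ^ j * b ^ j * (m * m) * (b * (b - 1)) := by rw [h2]
    _ = (b ^ j * b * m) * (b ^ j * m) * (b - 1) := by ring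
    _ = b ^ (2 * L + 1) * (b - 1) := by
      rw [← hN]
      have : b ^ j * m = b ^ L := by
        rw [hmdef, ← pow_add]
        congr 1
        omega
      rw [this, ← pow_add]
      congr 2
      ring

end Pool.Agent.Helper71.SN.PkCNT1
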